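import Pool.Agent.H44.DV.Targets

/-!
# In almost every direction there are no wandering intervals (module NA)
-/

set_option autoImplicit false

namespace Pool.Agent.H12.DV.NA

open MeasureTheory Pool.Agent.H44.DU

/-- The points with a rational parameter on a side. -/
noncomputable def zz {n : ℕ} (S : Surf n) (r : Side n) (q : ℚ) : ℂ :=
  S.P r + ((q : ℝ) : ℂ) * (S.Q r - S.P r)

lemma zz_mem {n : ℕ} (S : Surf n) (r : Side n) (q : ℚ) (h0 : 0 < q) (h1 : q < 1) :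
    zz S r q ∈ openSegment ℝ (S.P r) (S.Q r) := by
  have h0' : (0 : ℝ) < q := by exact_mod_cast h0
  have h1' : (q : ℝ) < 1 := by exact_mod_cast h1
  refine ⟨1 - q, q, by linarith, h0', by ring, ?_⟩
  rw [zz, Complex.real_smul, Complex.real_smul]
  push_cast
  ring

lemma xi_zz {n : ℕ} (S : Surf n) (t : ℝ) (r : Side n) (q : ℚ) :
    xi t (zz S r q) = xi t (S.P r) - q * (xi t (S.P r) - xi t (S.Q r)) := by
  rw [zz, xi_add, xi_mul, xi_sub]
  ring

theorem pf_NA (h1 : D_CL) (h2 : D_PS) (h3 : D_PO) : D_NA := by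
  intro n S
  have hae : ∀ᵐ t : ℝ, ∀ i : Side n × ℚ × ℚ × ℕ × ℕ, 0 < i.2.1 → i.2.1 < 1 → 0 < i.2.2.1 →
      0 < i.2.2.2.1 → t ∉ S.Th i.1 (zz S i.1 i.2.1) (i.2.2.1 : ℝ) (i.2.2.2.1 : ℝ)
        (i.2.2.2.2 : ℝ) := by
    rw [ae_all_iff]
    rintro ⟨r, q, w, C, K⟩
    by_cases h : 0 < q ∧ q < 1 ∧ 0 < w ∧ 0 < C
    · obtain ⟨hq0, hq1, hw, hC⟩ := h
      have hw' : (0 : ℝ) < w := by exact_mod_cast hw
      have hC' : (0 : ℝ) < C := by exact_mod_cast hC
      have h4 := h3 (S.Th r (zz S r q) w C K) (w / C) (div_pos hw' hC')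
        (fun t ht ε hε => h2 n S r (zz S r q) w C K hw' hC' (zz_mem S r q hq0 hq1) t ht ε hε)
      filter_upwards [measure_eq_zero_iff_ae_notMem.1 h4] with t ht _ _ _ _
      exact ht
    · refine Filter.Eventually.of_forall fun t ha hb hc hd => ?_
      exact absurd ⟨ha, hb, hc, hd⟩ h
  filter_upwards [hae] with t ht
  intro W c d hcd hFr
  by_contra hne
  obtain ⟨C0, -, hC0⟩ := h1 n S t W c d hcd hFr hne
  have hin : ∀ x, c < x → x < d → S.InJ t (W 0) x := by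
    intro x hx1 hx2
    have h4 := hFr 1 x hx1 hx2
    have h5 : wd W 1 = [W 0] := rfl
    rw [h5, S.run_single] at h4
    exact h4
  obtain ⟨hx1, hx2⟩ := hin ((c + d) / 2) (by linarith) (by linarith)
  set p := xi t (S.P (W 0)) with hp
  set q' := xi t (S.Q (W 0)) with hq'
  have hδ : 0 < p - q' := by linarith
  have h4 : max 0 ((p - d) / (p - q')) < min 1 ((p - c) / (p - q')) := by
    rw [max_lt_iff, lt_min_iff, lt_min_iff]
    refine ⟨⟨one_pos, div_pos (by linarith) hδ⟩, ?_, ?_⟩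
    · rw [div_lt_one hδ]; linarith
    · exact div_lt_div_of_pos_right (by linarith) hδ
  obtain ⟨q, hq1, hq2⟩ := exists_rat_btwn h4
  rw [max_lt_iff] at hq1
  rw [lt_min_iff] at hq2
  obtain ⟨hq0, hqd⟩ := hq1
  obtain ⟨hq1, hqc⟩ := hq2
  rw [div_lt_iff₀ hδ] at hqd
  rw [lt_div_iff₀ hδ] at hqc
  have hxz : xi t (zz S (W 0) q) = p - q * (p - q') := xi_zz S t (W 0) q
  have hxc : c < xi t (zz S (W 0) q) := by rw [hxz]; linarith
  have hxd : xi t (zz S (W 0) q) < d := by rw [hxz]; linarith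
  obtain ⟨w, hw0, hw⟩ := exists_rat_btwn
    (lt_min (sub_pos.2 hxc) (sub_pos.2 hxd))
  rw [lt_min_iff] at hw
  obtain ⟨K, hK⟩ := exists_nat_ge |t|
  obtain ⟨C, hC⟩ := exists_nat_ge (max (C0 - xi t (zz S (W 0) q)) 1)
  rw [max_le_iff] at hC
  have hq0' : 0 < q := by exact_mod_cast hq0
  have hq1' : q < 1 := by exact_mod_cast hq1
  have hw0' : 0 < w := by exact_mod_cast hw0
  have hC' : 0 < C := by
    have h6 : (0 : ℝ) < C := lt_of_lt_of_le one_pos hC.2
    exact_mod_cast h6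
  refine ht (W 0, q, w, C, K) hq0' hq1' hw0' hC' ⟨hK, W, rfl, ?_, ?_⟩
  · intro k x hx1 hx2
    simp only at hx1 hx2
    exact hFr k x (by linarith [hw.1]) (by linarith [hw.2])
  · intro N
    obtain ⟨k, hk, hk2⟩ := hC0 N
    refine ⟨k, hk, hk2.trans ?_⟩
    have := hC.1
    simp only
    linarith

end Pool.Agent.H12.DV.NA
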