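import Pool.Agent.H44.DV.Targets

/-!
# The dichotomy: every foliation is Morse-Smale or minimal (module TD)
-/

set_option autoImplicit false

namespace Pool.Agent.H12.DV.TD

open Pool.Agent.H44.DU

theorem pf_TD (h1 : D_T1) (h2 : D_FI) (h3 : D_HY) (h4 : D_RR) (h5 : T_IO) : D_TD := by
  intro n S t c hc hok
  obtain ⟨rr, hper, hacc, hinj⟩ := h4 n S t
  obtain ⟨-, htr⟩ := h5 n S t
  have hrc : S.rev.Connected := hc
  have hrok : S.rev.OK t c :=
    ⟨hok.pos, hok.gdr, hok.gainr, hok.nwr, by rw [rr]; exact hok.gd, by rw [rr]; exact hok.gain,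
      by rw [rr]; exact hok.nw⟩
  have hf : ∀ y : ℕ → Side n × ℝ, (∀ k, S.Tr t (y k) (y (k + 1))) → S.TAcc t y ∨ S.Dns t y :=
    h1 n S t c hc hok
  have hb : ∀ y : ℕ → Side n × ℝ, (∀ k, S.Tr t (y (k + 1)) (y k)) →
      S.TAcc t y ∨ S.Dns t y := by
    intro y hy
    have hy' : ∀ k, S.rev.Tr t (S.io t (y k)) (S.io t (y (k + 1))) :=
      fun k => (htr _ _).1 (hy k)
    rcases h1 n S.rev t c hrc hrok (fun k => S.io t (y k)) hy' with h | h
    · left
      obtain ⟨q, hq, hq2⟩ := h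
      have hio := (h5 n S.rev t).1 q
      rw [rr] at hio
      refine ⟨S.rev.io t q, (hper _).2 (by rw [hio]; exact hq), ?_⟩
      have h6 : Acc (fun k => S.io t (y k)) (S.io t (S.rev.io t q)) := by
        rw [hio]; exact hq2
      exact (hacc y _).2 h6
    · right
      intro r x hrx
      exact (hacc y (r, x)).2 (h _ _ ((hinj r x).1 hrx))
  by_cases hP : S.TPer t = ∅
  · right
    have hne : ∀ y : ℕ → Side n × ℝ, ¬ S.TAcc t y := by
      rintro y ⟨q, hq, -⟩
      rw [hP] at hq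
      exact hq
    exact ⟨hP, ⟨fun y hy => (hf y hy).resolve_left (hne y),
      fun y hy => (hb y hy).resolve_left (hne y)⟩⟩
  · left
    obtain ⟨p, hp⟩ := Set.nonempty_iff_ne_empty.2 hP
    have hpin : S.InJ t p.1 p.2 := by
      obtain ⟨m, y, ⟨hm, hy, -⟩, rfl⟩ := hp
      exact (hy 0 hm).1
    have hda : ∀ y : ℕ → Side n × ℝ, S.Dns t y → S.TAcc t y :=
      fun y hy => ⟨p, hp, hy p.1 p.2 hpin⟩
    exact ⟨h2 n S t c hok, ⟨p, hp⟩, h3 n S t c hok.gd hok.pos hok.gain,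
      fun y hy => (hf y hy).elim id (hda y), fun y hy => (hb y hy).elim id (hda y)⟩

end Pool.Agent.H12.DV.TD
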